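import Pool.Agent.H76.SD.Targets2

/-!
# SETH for convex programming: module RB, semidefinite constraints of any order
-/

set_option autoImplicit false

open Finset

namespace Pool.Agent.H27.SD

open Pool.Agent.H76.CX
open Pool.Agent.H1.LP (kk)

/-- the constraints of dimension zero hold everywhere if the cell is not empty -/
lemma refutes_filter {n m : ℕ} (P : Relax n) (I : Finset (Fin P.size)) (phi : Fin m → Clause n)
    (de : ℝ) (hc : P.cell.Nonempty) (h : P.RefutesBy I phi de) :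
    P.RefutesBy (I.filter fun i => 1 ≤ P.kap i) phi de := by
  intro y hy
  refine h y fun i hi => ?_
  by_cases hk : 1 ≤ P.kap i
  · exact hy i (Finset.mem_filter.2 ⟨hi, hk⟩)
  · obtain ⟨x, hx⟩ := hc
    have h1 := P.feas x hx i
    have h2 : (fun a => ∑ k, P.A i a k * y k + P.b i a) =
        (fun a => ∑ k, P.A i a k * P.pt x k + P.b i a) := by
      funext a
      exact absurd a.pos (by omega)
    rw [h2]
    exact h1

theorem rb (hCD2 : T_CD2) (hPB : T_PB) : T_RB := by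
  intro ε hε
  obtain ⟨E, c, n0, hE, hEε, hpar⟩ := hPB ε hε
  refine ⟨c, n0, fun n s t hn hn2 hcs hns hts M P hM hsize hkap => ?_⟩
  obtain ⟨g, t', B, M0, hg, hB, hBn, h4, h5, h6, h7, hsg, h8, hM0, hUB, hmb, hwb, hfin⟩ :=
    hpar n s hn hn2 hcs hns
  have hM' : (M : ℝ) ≤ 2 ^ 2 ^ s := by exact_mod_cast hM
  have hunion : (M : ℝ) * (((2 ^ 2 ^ s : ℕ) : ℝ) + 1) * ((M0 : ℝ) + 1) ^ (2 ^ s + 1) *
      (1 / 2) ^ 2 ^ (2 * g) ≤ 1 / 4 := by
    refine le_trans ?_ hUB
    push_cast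
    gcongr
  obtain ⟨m, phi, hm1, hm2, hcl, hviol, hmain⟩ :=
    hCD2 E g t' n B M (2 ^ 2 ^ s) s M0 P hE hg hB hBn h4 h5 h6 h7 hsg h8 hM0 hunion hsize hkap
  refine ⟨4 * E * g * kk E, m, phi, hm1, hm2.trans hmb, hwb, hcl, fun x => ?_,
    fun J I hdis hcov href => ?_⟩
  · refine le_trans ?_ (hviol x)
    have h0 : (0 : ℝ) ≤ (m : ℝ) / 2 ^ (4 * E * g * kk E) := by positivity
    exact mul_le_mul_of_nonneg_right (by linarith) h0
  · classical
    obtain ⟨J', hJ'⟩ : ∃ J', J' = J.filter (fun j => (P j).cell.Nonempty) := ⟨_, rfl⟩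
    obtain ⟨I', hI'⟩ : ∃ I' : (j : Fin M) → Finset (Fin (P j).size),
        I' = fun j => (I j).filter (fun i => 1 ≤ (P j).kap i) := ⟨_, rfl⟩
    have hJJ : ∀ j ∈ J', j ∈ J ∧ (P j).cell.Nonempty := by
      intro j hj
      rw [hJ'] at hj
      exact Finset.mem_filter.1 hj
    have key := hmain J' I' ((1 / 2 : ℝ) ^ t) (by positivity)
      (fun j hj j' hj' hne => hdis j (hJJ j hj).1 j' (hJJ j' hj').1 hne)
      (fun x => by
        obtain ⟨j, hj, hx⟩ := hcov x
        refine ⟨j, ?_, hx⟩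
        rw [hJ']
        exact Finset.mem_filter.2 ⟨hj, ⟨x, hx⟩⟩)
      (fun j _ i hi => by
        rw [hI'] at hi
        exact (Finset.mem_filter.1 hi).2)
      (fun j hj => by
        rw [hI']
        exact refutes_filter (P j) (I j) phi _ (hJJ j hj).2 (href j (hJJ j hj).1))
    have hst : (1 / 2 : ℝ) ^ s ≤ (1 / 2 : ℝ) ^ t :=
      pow_le_pow_of_le_one (by norm_num) (by norm_num) hts
    have hnn : ∀ j (F : Finset (Fin (P j).size)), (0 : ℝ) ≤ 1 + ∑ i ∈ F, ((P j).kap i : ℝ) := by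
      intro j F
      have : (0 : ℝ) ≤ ∑ i ∈ F, ((P j).kap i : ℝ) := Finset.sum_nonneg fun i _ => Nat.cast_nonneg _
      linarith
    have h9 := hfin (∑ j ∈ J', (1 + ∑ i ∈ I' j, ((P j).kap i : ℝ)))
      (Finset.sum_nonneg fun j _ => hnn j _)
      (key.imp (fun h => hst.trans h) id)
    refine h9.trans ?_
    have h10 : ∑ j ∈ J', (1 + ∑ i ∈ I' j, ((P j).kap i : ℝ)) ≤
        ∑ j ∈ J', (1 + ∑ i ∈ I j, ((P j).kap i : ℝ)) := by
      refine Finset.sum_le_sum fun j _ => ?_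
      have h11 : ∑ i ∈ I' j, ((P j).kap i : ℝ) ≤ ∑ i ∈ I j, ((P j).kap i : ℝ) := by
        rw [hI']
        exact Finset.sum_le_sum_of_subset_of_nonneg (Finset.filter_subset _ _)
          fun i _ _ => Nat.cast_nonneg _
      linarith
    refine h10.trans ?_
    rw [hJ']
    exact Finset.sum_le_sum_of_subset_of_nonneg (Finset.filter_subset _ _) fun j _ _ => hnn j _

end Pool.Agent.H27.SD
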